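import Pool.Agent.H681R2.GaugeMain

/-!
# Subsets of finite positive Hausdorff measure, for all gauges

Proof idea of the failure.  Let `X ⊆ [0,1)` be a non-null set of minimal cardinality, well ordered
with initial segments of smaller cardinality, and let `c x` be a code of a null set containing the
points before `x`.  The set `A` consists of the reals `y x` whose binary digits are those of `x`,
with the digits of `c x` inserted at very sparse places.  By Fubini's theorem `A` is null for every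
finite Borel measure without atoms, so it has no subset of finite positive `H^f`-measure; the map
`y x ↦ x` shows that `H^f (A) > 0` as soon as `f (t) / t → ∞` and the places are sparse enough.
-/

set_option autoImplicit false

namespace Pool.Agent.Results.MP_b87f19_lc.SemifiniteGauges

open Set Pool.Agent.H681R2
open scoped ENNReal NNReal

lemma isGauge_sqrt : IsGauge NNReal.sqrt where
  mono := NNReal.sqrt.monotone
  rightCont := fun _ => NNReal.continuous_sqrt.continuousWithinAt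
  zero := NNReal.sqrt_zero
  pos := fun _ ht => NNReal.sqrt_pos.mpr ht

lemma sqrt_not_liminf : ¬ ∃ K : ℝ≥0, ∀ ε : ℝ≥0, 0 < ε →
    ∃ t : ℝ≥0, 0 < t ∧ t < ε ∧ NNReal.sqrt t ≤ K * t := by
  rintro ⟨K, hK⟩
  obtain ⟨t, ht0, ht, htK⟩ := hK ((K ^ 2 + 1)⁻¹) (by positivity)
  have h1 : NNReal.sqrt t * NNReal.sqrt t = t := NNReal.mul_self_sqrt t
  have hs : 0 < NNReal.sqrt t := NNReal.sqrt_pos.mpr ht0
  have h2 : (1 : ℝ≥0) ≤ K * NNReal.sqrt t := by
    have h3 : NNReal.sqrt t * 1 ≤ NNReal.sqrt t * (K * NNReal.sqrt t) := by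
      calc NNReal.sqrt t * 1 = NNReal.sqrt t := mul_one _
        _ ≤ K * t := htK
        _ = NNReal.sqrt t * (K * NNReal.sqrt t) := by
          conv_lhs => rw [← h1]
          ring
    exact le_of_mul_le_mul_left h3 hs
  have h3 : (1 : ℝ≥0) ≤ K ^ 2 * t := by
    calc (1 : ℝ≥0) = 1 * 1 := (one_mul 1).symm
      _ ≤ (K * NNReal.sqrt t) * (K * NNReal.sqrt t) := by gcongr
      _ = K ^ 2 * (NNReal.sqrt t * NNReal.sqrt t) := by ring
      _ = K ^ 2 * t := by rw [h1]
  have h4 : (K ^ 2 + 1) * t < 1 := by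
    calc (K ^ 2 + 1) * t < (K ^ 2 + 1) * (K ^ 2 + 1)⁻¹ := by gcongr
      _ = 1 := mul_inv_cancel₀ (by positivity)
  have h5 : K ^ 2 * t ≤ (K ^ 2 + 1) * t := by
    gcongr
    exact le_self_add
  exact absurd (h3.trans h5) (not_le.mpr h4)

/-- For a gauge function `f`, every set of reals of positive `H^f`-measure has a subset of finite
positive `H^f`-measure if and only if `liminf_{t → 0+} f(t)/t < ∞`. There are a gauge `f` and a set
of reals of positive `H^f`-measure all of whose subsets have `H^f`-measure `0` or `∞`. -/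
theorem result :
    (∀ f : ℝ≥0 → ℝ≥0, IsGauge f →
      ((∀ A : Set ℝ, 0 < gaugeMeas f A → ∃ A₀ ⊆ A, 0 < gaugeMeas f A₀ ∧ gaugeMeas f A₀ < ⊤) ↔
        ∃ K : ℝ≥0, ∀ ε : ℝ≥0, 0 < ε → ∃ t : ℝ≥0, 0 < t ∧ t < ε ∧ f t ≤ K * t)) ∧
    (∃ f : ℝ≥0 → ℝ≥0, IsGauge f ∧ ∃ A : Set ℝ, 0 < gaugeMeas f A ∧
      ∀ A₀ ⊆ A, gaugeMeas f A₀ = 0 ∨ gaugeMeas f A₀ = ⊤) := by
  refine ⟨fun f hf => ⟨fun h => ?_, fun h => exists_subset_of_liminf hf h⟩, ?_⟩
  · by_contra hn
    obtain ⟨A, hA, hsub⟩ := exists_bad_set hf hn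
    obtain ⟨A₀, h1, h2, h3⟩ := h A hA
    rcases hsub A₀ h1 with h4 | h4
    · exact h2.ne' h4
    · exact h3.ne h4
  · obtain ⟨A, hA, hsub⟩ := exists_bad_set isGauge_sqrt sqrt_not_liminf
    exact ⟨_, isGauge_sqrt, A, hA, hsub⟩

end Pool.Agent.Results.MP_b87f19_lc.SemifiniteGauges
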